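import Mathlib

/-!
# XV, V3: one bad entry
-/

set_option autoImplicit false

namespace Pool.Agent.Helper2.XV

/-- V3: one bad entry. -/
theorem single_tuples {α : Type*} {k : ℕ} (T : Fin k → Finset α) (i : Fin k) (Bd : α → Prop)
    (η : ℝ) (h : (({y | y ∈ T i ∧ Bd y}.ncard : ℕ) : ℝ) ≤ η * (T i).card) :
    (({x : Fin k → α | (∀ j, x j ∈ T j) ∧ Bd (x i)}.ncard : ℕ) : ℝ) ≤
      η * ∏ j, ((T j).card : ℝ) := by
  classical
  have h1 : {y | y ∈ T i ∧ Bd y} = (((T i).filter Bd : Finset α) : Set α) := by
    ext y
    simp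
  have h2 : {x : Fin k → α | (∀ j, x j ∈ T j) ∧ Bd (x i)} =
      ((Fintype.piFinset (Function.update T i ((T i).filter Bd)) : Finset (Fin k → α)) :
        Set (Fin k → α)) := by
    ext x
    rw [Finset.mem_coe, Fintype.mem_piFinset]
    constructor
    · rintro ⟨hx, hb⟩ j
      by_cases hj : j = i
      · subst hj
        rw [Function.update_self, Finset.mem_filter]
        exact ⟨hx j, hb⟩
      · rw [Function.update_of_ne hj]
        exact hx j
    · intro hx
      have hi := hx i
      rw [Function.update_self, Finset.mem_filter] at hi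
      refine ⟨fun j => ?_, hi.2⟩
      by_cases hj : j = i
      · subst hj
        exact hi.1
      · have hj' := hx j
        rwa [Function.update_of_ne hj] at hj'
  rw [h1, Set.ncard_coe_finset] at h
  rw [h2, Set.ncard_coe_finset, Fintype.card_piFinset, Nat.cast_prod,
    ← Finset.mul_prod_erase Finset.univ _ (Finset.mem_univ i),
    ← Finset.mul_prod_erase Finset.univ (fun j => ((T j).card : ℝ)) (Finset.mem_univ i),
    Function.update_self, ← mul_assoc]
  have h3 : ∏ j ∈ Finset.univ.erase i,
      (((Function.update T i ((T i).filter Bd) j).card : ℕ) : ℝ) =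
      ∏ j ∈ Finset.univ.erase i, ((T j).card : ℝ) := by
    refine Finset.prod_congr rfl fun j hj => ?_
    rw [Function.update_of_ne (Finset.ne_of_mem_erase hj)]
  rw [h3]
  exact mul_le_mul_of_nonneg_right h (Finset.prod_nonneg fun j _ => Nat.cast_nonneg _)

end Pool.Agent.Helper2.XV
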