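import Mathlib

/-!
# XV, V4 and V5 (second hand)
-/

set_option autoImplicit false

open Filter

namespace Pool.Agent.Helper2.XV

/-- V5 -/
theorem absorb {d : ℝ} (hd : 0 < d) : ∃ G : ℕ, 1 ≤ G ∧ ∀ q : ℕ, 16 ≤ q → ∀ m : ℕ, G ≤ m →
    ∀ β : ℝ, 1 ≤ β → β ≤ (m : ℝ) ^ (4 / 5 : ℝ) →
    13 * (q : ℝ) ^ (-(2 * d * m / β)) ≤ (q : ℝ) ^ (-(d * m / β)) := by
  refine ⟨⌈(1 / d) ^ (5 : ℝ)⌉₊ + 1, by omega, fun q hq m hm β hβ hβm => ?_⟩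
  have hq16 : (16 : ℝ) ≤ q := by exact_mod_cast hq
  have hq0 : (0 : ℝ) < q := by linarith
  have hmR : (1 / d) ^ (5 : ℝ) ≤ (m : ℝ) := by
    have h1 := Nat.le_ceil ((1 / d) ^ (5 : ℝ))
    have h2 : ((⌈(1 / d) ^ (5 : ℝ)⌉₊ + 1 : ℕ) : ℝ) ≤ m := by exact_mod_cast hm
    push_cast at h2
    linarith
  have hm1 : (1 : ℝ) ≤ m := by
    have : 1 ≤ m := by omega
    exact_mod_cast this
  have hm0 : (0 : ℝ) < m := by linarith
  have h5 : 1 / d ≤ (m : ℝ) ^ (1 / 5 : ℝ) := by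
    have h1 := Real.rpow_le_rpow (by positivity) hmR (by norm_num : (0 : ℝ) ≤ 1 / 5)
    rwa [← Real.rpow_mul (by positivity), show (5 : ℝ) * (1 / 5) = 1 by norm_num,
      Real.rpow_one] at h1
  have hβ0 : 0 < β := by linarith
  have hsplit : (m : ℝ) ^ (1 / 5 : ℝ) * (m : ℝ) ^ (4 / 5 : ℝ) = m := by
    rw [← Real.rpow_add hm0, show (1 / 5 : ℝ) + 4 / 5 = 1 by norm_num, Real.rpow_one]
  have hge : (m : ℝ) ^ (1 / 5 : ℝ) ≤ m / β := by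
    rw [le_div_iff₀ hβ0]
    calc (m : ℝ) ^ (1 / 5 : ℝ) * β ≤ (m : ℝ) ^ (1 / 5 : ℝ) * (m : ℝ) ^ (4 / 5 : ℝ) :=
          mul_le_mul_of_nonneg_left hβm (by positivity)
      _ = m := hsplit
  have hexp : 1 ≤ d * m / β := by
    have h1 : d * (1 / d) ≤ d * (m / β) := mul_le_mul_of_nonneg_left (h5.trans hge) hd.le
    rw [mul_one_div_cancel hd.ne'] at h1
    calc (1 : ℝ) ≤ d * (m / β) := h1
      _ = d * m / β := by ring
  have hbig : (13 : ℝ) ≤ (q : ℝ) ^ (d * m / β) := by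
    calc (13 : ℝ) ≤ (q : ℝ) ^ (1 : ℝ) := by rw [Real.rpow_one]; linarith
      _ ≤ (q : ℝ) ^ (d * m / β) := Real.rpow_le_rpow_of_exponent_le (by linarith) hexp
  have hpos : 0 < (q : ℝ) ^ (-(2 * d * m / β)) := Real.rpow_pos_of_pos hq0 _
  calc 13 * (q : ℝ) ^ (-(2 * d * m / β)) ≤
      (q : ℝ) ^ (d * m / β) * (q : ℝ) ^ (-(2 * d * m / β)) :=
        mul_le_mul_of_nonneg_right hbig hpos.le
    _ = (q : ℝ) ^ (-(d * m / β)) := by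
        rw [← Real.rpow_add hq0]
        congr 1
        ring

/-- V4 -/
theorem asymp {d₀ : ℝ} (h0 : 0 < d₀) : ∃ G : ℕ, 10 ^ 10 ≤ G ∧ ∀ m : ℕ, G ≤ m → ∀ β : ℝ, 1 ≤ β →
    β ≤ (m : ℝ) ^ (4 / 5 : ℝ) → 24 * (m : ℝ) ^ (2 * β) ≤ Real.exp (d₀ * m / 2) := by
  have h1 := (isLittleO_log_rpow_atTop (r := (1 / 5 : ℝ)) (by norm_num)).def
    (show 0 < d₀ / 8 by positivity)
  have h2 := h1.and ((eventually_ge_atTop (4 * Real.log 24 / d₀)).and (eventually_ge_atTop (1 : ℝ)))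
  obtain ⟨G, hG⟩ := eventually_atTop.1 (tendsto_natCast_atTop_atTop.eventually h2)
  refine ⟨max G (10 ^ 10), le_max_right _ _, fun m hm β hβ hβm => ?_⟩
  obtain ⟨k1, k2, k3⟩ := hG m ((le_max_left _ _).trans hm)
  have hm0 : (0 : ℝ) < m := by linarith
  have hlog : 0 ≤ Real.log m := Real.log_nonneg k3
  rw [Real.norm_of_nonneg hlog, Real.norm_of_nonneg (by positivity)] at k1
  have hsplit : (m : ℝ) ^ (4 / 5 : ℝ) * (m : ℝ) ^ (1 / 5 : ℝ) = m := by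
    rw [← Real.rpow_add hm0, show (4 / 5 : ℝ) + 1 / 5 = 1 by norm_num, Real.rpow_one]
  have h24 : Real.log 24 ≤ d₀ * m / 4 := by
    rw [div_le_iff₀ h0] at k2
    linarith
  have hmain : 2 * β * Real.log m ≤ d₀ * m / 4 := by
    have e1 : β * Real.log m ≤ (m : ℝ) ^ (4 / 5 : ℝ) * (d₀ / 8 * (m : ℝ) ^ (1 / 5 : ℝ)) :=
      mul_le_mul hβm k1 hlog (by positivity)
    have e2 : (m : ℝ) ^ (4 / 5 : ℝ) * (d₀ / 8 * (m : ℝ) ^ (1 / 5 : ℝ)) = d₀ / 8 * m := by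
      calc (m : ℝ) ^ (4 / 5 : ℝ) * (d₀ / 8 * (m : ℝ) ^ (1 / 5 : ℝ)) =
          d₀ / 8 * ((m : ℝ) ^ (4 / 5 : ℝ) * (m : ℝ) ^ (1 / 5 : ℝ)) := by ring
        _ = d₀ / 8 * m := by rw [hsplit]
    nlinarith
  calc 24 * (m : ℝ) ^ (2 * β) = Real.exp (Real.log 24 + 2 * β * Real.log m) := by
        rw [Real.exp_add, Real.exp_log (by norm_num), Real.rpow_def_of_pos hm0]
        ring_nf
    _ ≤ Real.exp (d₀ * m / 2) := Real.exp_le_exp.2 (by linarith)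

end Pool.Agent.Helper2.XV
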